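import Mathlib

/-!
# Flarbs of binary trees (MP_5c307f_lc)
-/

namespace Pool.Agent.R42.FL

/-- Binary trees whose nodes carry natural numbers (the names of the nodes). -/
inductive BT : Type
  | nil : BT
  | node (l : BT) (x : ℕ) (r : BT) : BT

namespace BT

/-- The nodes of a tree, in symmetric order (in-order). -/
def inorder : BT → List ℕ
  | nil => []
  | node l x r => l.inorder ++ x :: r.inorder

/-- The name of the root, if there is one. -/
def root : BT → Option ℕ
  | nil => none
  | node _ x _ => some x

/-- The parent-child relationships: `(x, false, y)` means that `y` is the left child of `x`, and
`(x, true, y)` that `y` is the right child of `x`. -/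
def edges : BT → Finset (ℕ × Bool × ℕ)
  | nil => ∅
  | node l x r =>
    (l.root.toFinset.image fun y => (x, false, y)) ∪
      (r.root.toFinset.image fun y => (x, true, y)) ∪ l.edges ∪ r.edges

/-- The nodes in `S` form a set that is closed under taking parents (that is, `S` restricted to
the tree is empty, or it contains the root and is connected). -/
def ParentClosed (S : Finset ℕ) : BT → Prop
  | nil => True
  | node l x r => (x ∈ S ∧ ParentClosed S l ∧ ParentClosed S r) ∨
      ∀ y ∈ (node l x r).inorder, y ∉ S

/-- `S` is an anchored subtree of `T`: a connected set of nodes of `T` that contains the root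
(empty when `T` is empty). -/
def Anchored (S : Finset ℕ) (T : BT) : Prop :=
  (∀ y ∈ S, y ∈ T.inorder) ∧ T.ParentClosed S ∧ ∀ x, T.root = some x → x ∈ S

/-- Cut the anchored set `S` out of a tree: the result is the list of the nodes in `S`, in
symmetric order, each with the subtree (not in `S`) hanging in the gap just before it, together
with the subtree hanging in the gap after the last node in `S`. -/
def cut (S : Finset ℕ) : BT → List (BT × ℕ) × BT
  | nil => ([], nil)
  | node l x r =>
    if x ∈ S then
      ((cut S l).1 ++ ((cut S l).2, x) :: (cut S r).1, (cut S r).2)
    else ([], node l x r)

/-- The tree whose rightmost path is the given list of nodes, with the given left subtrees. -/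
def spine : List (BT × ℕ) → BT
  | [] => nil
  | (g, x) :: L => node g x (spine L)

/-- The flarb of the anchored subtree `S` of `T`, where `r` is the name of the new root: `r` is
added with left subtree `T` and no right child, and the nodes in `S ∪ {r}` are rearranged
into a rightmost path, keeping the symmetric order and the shape of the hanging subtrees. -/
def flarb (S : Finset ℕ) (r : ℕ) (T : BT) : BT :=
  spine ((cut S T).1 ++ [((cut S T).2, r)])

end BT

/-- The sequence of trees obtained from the empty tree by flarbs; the `i`-th flarb adds the
node `i` and uses the set `S i`. -/
def trees (S : ℕ → Finset ℕ) : ℕ → BT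
  | 0 => BT.nil
  | i + 1 => BT.flarb (S i) i (trees S i)

/-- The number of pointer changes: the number of parent/left-child and parent/right-child
relationships that hold in exactly one of the two trees. -/
def cost (T T' : BT) : ℕ := (symmDiff T.edges T'.edges).card

end Pool.Agent.R42.FL
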