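import Pool.Agent.R42.FL.Defs

/-!
# A sequence of flarbs with many pointer changes
-/

namespace Pool.Agent.R42.FL

open BT

/-- A state: the rightmost path, each node with its list of hidden nodes. -/
abbrev St := List (List ℕ × ℕ)

/-- a rightmost path without left subtrees -/
def path : List ℕ → BT
  | [] => nil
  | c :: h => node nil c (path h)

def toTree : St → BT
  | [] => nil
  | (h, u) :: σ => node (path h) u (toTree σ)

/-- reveal the first hidden node of every entry -/
def rev1 : List ℕ × ℕ → St
  | ([], u) => [([], u)]
  | (c :: h, u) => [([], c), (h, u)]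

def rev (σ : St) : St := σ.flatMap rev1

/-- the labels of a state, in symmetric order -/
def labels : St → List ℕ
  | [] => []
  | (h, u) :: σ => h ++ u :: labels σ

/-- number of entries with a hidden node -/
def act : St → ℕ
  | [] => 0
  | ([], _) :: σ => act σ
  | (_ :: _, _) :: σ => act σ + 1

/-- nodes that stay or become visible -/
def vis : St → List ℕ
  | [] => []
  | ([], u) :: σ => u :: vis σ
  | (c :: _, u) :: σ => c :: u :: vis σ

def plain (L : List ℕ) : St := L.map fun c => ([], c)

@[simp] theorem labels_append (A B : St) : labels (A ++ B) = labels A ++ labels B := by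
  induction A with
  | nil => rfl
  | cons p A ih =>
    obtain ⟨h, u⟩ := p
    simp [labels, ih]

@[simp] theorem labels_plain (L : List ℕ) : labels (plain L) = L := by
  induction L with
  | nil => rfl
  | cons c L ih => simpa [plain, labels] using ih

@[simp] theorem rev_append (A B : St) : rev (A ++ B) = rev A ++ rev B := by
  simp [rev]

@[simp] theorem labels_rev (A : St) : labels (rev A) = labels A := by
  induction A with
  | nil => rfl
  | cons p A ih =>
    obtain ⟨h, u⟩ := p
    have e : rev ((h, u) :: A) = rev1 (h, u) ++ rev A := by simp [rev]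
    rw [e, labels_append, ih]
    cases h with
    | nil => simp [rev1, labels]
    | cons c h => simp [rev1, labels]

@[simp] theorem act_append (A B : St) : act (A ++ B) = act A + act B := by
  induction A with
  | nil => simp [act]
  | cons p A ih =>
    obtain ⟨h, u⟩ := p
    cases h with
    | nil => simp [act, ih]
    | cons c h => simp [act, ih]; omega

theorem rev_plain (L : List ℕ) : rev (plain L) = plain L := by
  induction L with
  | nil => rfl
  | cons c L ih =>
    have e : rev (plain (c :: L)) = rev1 ([], c) ++ rev (plain L) := by simp [rev, plain]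
    rw [e, ih]
    rfl

theorem inorder_path (h : List ℕ) : (path h).inorder = h := by
  induction h with
  | nil => rfl
  | cons c h ih => simp [path, inorder, ih]

theorem inorder_toTree (σ : St) : (toTree σ).inorder = labels σ := by
  induction σ with
  | nil => rfl
  | cons p σ ih =>
    obtain ⟨h, u⟩ := p
    simp [toTree, inorder, inorder_path, labels, ih]

theorem vis_sub (A : St) : ∀ y ∈ vis A, y ∈ labels A := by
  induction A with
  | nil => simp [vis]
  | cons p A ih =>
    obtain ⟨h, u⟩ := p
    intro y hy
    cases h with
    | nil =>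
      simp only [vis, List.mem_cons] at hy
      simp only [labels, List.nil_append, List.mem_cons]
      rcases hy with hy | hy
      · exact Or.inl hy
      · exact Or.inr (ih y hy)
    | cons c h =>
      simp only [vis, List.mem_cons] at hy
      simp only [labels, List.cons_append, List.mem_cons, List.mem_append]
      rcases hy with hy | hy | hy
      · exact Or.inl hy
      · exact Or.inr (Or.inr (Or.inl hy))
      · exact Or.inr (Or.inr (Or.inr (ih y hy)))

theorem cut_of_disjoint (S : Finset ℕ) (T : BT) (h : ∀ y ∈ T.inorder, y ∉ S) :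
    cut S T = ([], T) := by
  cases T with
  | nil => rfl
  | node l x r =>
    have hx : x ∉ S := h x (by simp [inorder])
    simp [cut, hx]

theorem parentClosed_of_disjoint (S : Finset ℕ) (T : BT) (h : ∀ y ∈ T.inorder, y ∉ S) :
    T.ParentClosed S := by
  cases T with
  | nil => trivial
  | node l x r => exact Or.inr h

/-- `S` selects exactly the visible nodes and first hidden nodes of `A`. -/
def Sel (S : Finset ℕ) : St → Prop
  | [] => True
  | ([], u) :: A => u ∈ S ∧ Sel S A
  | (c :: h, u) :: A => (c ∈ S ∧ (∀ y ∈ h, y ∉ S) ∧ u ∈ S) ∧ Sel S A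

theorem cut_toTree (S : Finset ℕ) (A B : St) (hA : Sel S A)
    (hB : ∀ y ∈ labels B, y ∉ S) :
    cut S (toTree (A ++ B)) = ((rev A).map (fun p => (path p.1, p.2)), toTree B) := by
  induction A with
  | nil =>
    rw [List.nil_append]
    exact cut_of_disjoint S _ (by rw [inorder_toTree]; exact hB)
  | cons p A ih =>
    obtain ⟨h, u⟩ := p
    have e : rev ((h, u) :: A) = rev1 (h, u) ++ rev A := by simp [rev]
    cases h with
    | nil =>
      obtain ⟨h1, h2⟩ := hA
      have := ih h2
      rw [e]
      simp [toTree, cut, h1, this, path, rev1]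
    | cons c h =>
      obtain ⟨⟨h1, h3, h4⟩, h2⟩ := hA
      have := ih h2
      have h5 : cut S (path h) = ([], path h) :=
        cut_of_disjoint S _ (by rw [inorder_path]; exact h3)
      rw [e]
      simp [toTree, cut, h1, h4, this, path, rev1, h5]

theorem parentClosed_toTree (S : Finset ℕ) (A B : St) (hA : Sel S A)
    (hB : ∀ y ∈ labels B, y ∉ S) : (toTree (A ++ B)).ParentClosed S := by
  induction A with
  | nil =>
    rw [List.nil_append]
    exact parentClosed_of_disjoint S _ (by rw [inorder_toTree]; exact hB)
  | cons p A ih =>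
    obtain ⟨h, u⟩ := p
    cases h with
    | nil =>
      obtain ⟨h1, h2⟩ := hA
      exact Or.inl ⟨h1, trivial, ih h2⟩
    | cons c h =>
      obtain ⟨⟨h1, h3, h4⟩, h2⟩ := hA
      refine Or.inl ⟨h4, Or.inl ⟨h1, trivial, ?_⟩, ih h2⟩
      exact parentClosed_of_disjoint S _ (by rw [inorder_path]; exact h3)

theorem spine_map (σ : St) : spine (σ.map (fun p => (path p.1, p.2))) = toTree σ := by
  induction σ with
  | nil => rfl
  | cons p σ ih =>
    obtain ⟨h, u⟩ := p
    simp only [List.map_cons, spine, toTree, ih]

theorem toTree_plain (L : List ℕ) : toTree (plain L) = path L := by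
  induction L with
  | nil => rfl
  | cons c L ih =>
    have : plain (c :: L) = ([], c) :: plain L := rfl
    rw [this]
    simp only [toTree, path, ih]

theorem flarb_toTree (S : Finset ℕ) (t : ℕ) (A : St) (L : List ℕ) (hA : Sel S A)
    (hB : ∀ y ∈ L, y ∉ S) :
    flarb S t (toTree (A ++ plain L)) = toTree (rev A ++ [(L, t)]) := by
  unfold flarb
  rw [cut_toTree S A (plain L) hA (by rw [labels_plain]; exact hB), toTree_plain]
  have : (rev A).map (fun p => (path p.1, p.2)) ++ [(path L, t)]
      = (rev A ++ [(L, t)]).map (fun p => (path p.1, p.2)) := by simp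
  rw [this, spine_map]

theorem sel_vis (A : St) (hn : (labels A).Nodup) (S : Finset ℕ)
    (h1 : ∀ y ∈ vis A, y ∈ S) (h2 : ∀ y ∈ labels A, y ∉ vis A → y ∉ S) : Sel S A := by
  induction A with
  | nil => trivial
  | cons p A ih =>
    obtain ⟨h, u⟩ := p
    cases h with
    | nil =>
      simp only [labels, List.nil_append, List.nodup_cons] at hn
      refine ⟨h1 u (by simp [vis]), ih hn.2 (fun y hy => h1 y (by simp [vis, hy])) ?_⟩
      intro y hy hyv
      refine h2 y (by simp [labels, hy]) ?_
      simp only [vis, List.mem_cons, not_or]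
      refine ⟨?_, hyv⟩
      rintro rfl
      exact hn.1 hy
    | cons c h =>
      simp only [labels, List.cons_append, List.nodup_cons, List.mem_append, List.mem_cons,
        not_or] at hn
      obtain ⟨⟨hc1, hc2, hc3⟩, hn2⟩ := hn
      rw [List.nodup_append] at hn2
      obtain ⟨hn3, hn4, hn5⟩ := hn2
      rw [List.nodup_cons] at hn4
      refine ⟨⟨h1 c (by simp [vis]), ?_, h1 u (by simp [vis])⟩,
        ih hn4.2 (fun y hy => h1 y (by simp [vis, hy])) ?_⟩
      · intro y hy
        refine h2 y (by simp [labels, hy]) ?_
        simp only [vis, List.mem_cons, not_or]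
        refine ⟨?_, ?_, ?_⟩
        · rintro rfl
          exact hc1 hy
        · exact hn5 y hy u (by simp)
        · intro hv
          exact hn5 y hy y (List.mem_cons_of_mem _ (vis_sub A y hv)) rfl
      · intro y hy hyv
        refine h2 y (by simp [labels, hy]) ?_
        simp only [vis, List.mem_cons, not_or]
        refine ⟨?_, ?_, hyv⟩
        · rintro rfl
          exact hc3 hy
        · rintro rfl
          exact hn4.1 hy

/-! ### counting pointer changes -/

theorem mem_edges_path (h : List ℕ) (x y : ℕ) : (x, false, y) ∉ (path h).edges := by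
  induction h with
  | nil => simp [path, edges]
  | cons c h ih => simp [path, edges, ih, BT.root]

/-- left edges -/
theorem mem_edges_toTree (σ : St) (x y : ℕ) :
    (x, false, y) ∈ (toTree σ).edges ↔ ∃ h, (y :: h, x) ∈ σ := by
  induction σ with
  | nil => simp [toTree, edges]
  | cons p σ ih =>
    obtain ⟨h, u⟩ := p
    simp only [toTree, edges, Finset.mem_union, Finset.mem_image, Option.mem_toFinset,
      Prod.mk.injEq, mem_edges_path, or_false, ih, List.mem_cons]
    constructor
    · rintro ((⟨z, hz, rfl, -, rfl⟩ | ⟨z, hz, -, h', -⟩) | ⟨h', hh⟩)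
      · cases h with
        | nil => simp [path, BT.root] at hz
        | cons c h =>
          simp only [path, BT.root, Option.mem_def, Option.some.injEq] at hz
          subst hz
          exact ⟨h, Or.inl ⟨rfl, rfl⟩⟩
      · exact absurd h' (by simp)
      · exact ⟨h', Or.inr hh⟩
    · rintro ⟨h', ⟨hh, rfl⟩ | hh⟩
      · left; left
        refine ⟨y, ?_, rfl, trivial, rfl⟩
        rw [← hh]
        simp [path, BT.root]
      · exact Or.inr ⟨h', hh⟩

/-- the list of left edges of the entries with a hidden node -/
def ledges : St → List (ℕ × Bool × ℕ)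
  | [] => []
  | ([], _) :: σ => ledges σ
  | (c :: _, u) :: σ => (u, false, c) :: ledges σ

theorem ledges_length (A : St) : (ledges A).length = act A := by
  induction A with
  | nil => rfl
  | cons p A ih =>
    obtain ⟨h, u⟩ := p
    cases h with
    | nil => simpa [ledges, act] using ih
    | cons c h => simpa [ledges, act] using ih

theorem mem_ledges (A : St) (x y : ℕ) (b : Bool) :
    (x, b, y) ∈ ledges A → b = false ∧ ∃ h, (y :: h, x) ∈ A := by
  induction A with
  | nil => simp [ledges]
  | cons p A ih =>
    obtain ⟨h, u⟩ := p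
    cases h with
    | nil =>
      intro hm
      obtain ⟨h1, h', h2⟩ := ih hm
      exact ⟨h1, h', List.mem_cons_of_mem _ h2⟩
    | cons c h =>
      intro hm
      simp only [ledges, List.mem_cons, Prod.mk.injEq] at hm
      rcases hm with ⟨rfl, rfl, rfl⟩ | hm
      · exact ⟨rfl, h, by simp⟩
      · obtain ⟨h1, h', h2⟩ := ih hm
        exact ⟨h1, h', List.mem_cons_of_mem _ h2⟩

theorem snd_mem_labels (A : St) (h : List ℕ) (x : ℕ) (hm : (h, x) ∈ A) :
    x ∈ labels A ∧ ∀ y ∈ h, y ∈ labels A := by
  induction A with
  | nil => simp at hm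
  | cons p A ih =>
    obtain ⟨h', u⟩ := p
    rw [List.mem_cons] at hm
    rcases hm with hm | hm
    · rw [Prod.mk.injEq] at hm
      obtain ⟨rfl, rfl⟩ := hm
      exact ⟨by simp [labels], fun y hy => by simp [labels, hy]⟩
    · obtain ⟨h1, h2⟩ := ih hm
      exact ⟨by simp [labels, h1], fun y hy => by simp [labels, h2 y hy]⟩

theorem ledges_nodup (A : St) (hn : (labels A).Nodup) : (ledges A).Nodup := by
  induction A with
  | nil => simp [ledges]
  | cons p A ih =>
    obtain ⟨h, u⟩ := p
    have hn' : (labels A).Nodup := by
      unfold labels at hn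
      rw [List.nodup_append] at hn
      exact (List.nodup_cons.mp hn.2.1).2
    have hu : u ∉ labels A := by
      unfold labels at hn
      rw [List.nodup_append] at hn
      exact (List.nodup_cons.mp hn.2.1).1
    cases h with
    | nil => exact ih hn'
    | cons c h =>
      simp only [ledges, List.nodup_cons]
      refine ⟨?_, ih hn'⟩
      intro hm
      obtain ⟨-, h', h2⟩ := mem_ledges A u c false hm
      exact hu (snd_mem_labels A _ _ h2).1

/-- unique entry with a given label -/
theorem entry_unique (A : St) (hn : (labels A).Nodup) (h h' : List ℕ) (x : ℕ)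
    (h1 : (h, x) ∈ A) (h2 : (h', x) ∈ A) : h = h' := by
  induction A with
  | nil => simp at h1
  | cons p A ih =>
    obtain ⟨g, u⟩ := p
    unfold labels at hn
    rw [List.nodup_append] at hn
    obtain ⟨-, hn2, -⟩ := hn
    rw [List.nodup_cons] at hn2
    rw [List.mem_cons] at h1 h2
    rcases h1 with h1 | h1 <;> rcases h2 with h2 | h2
    · rw [Prod.mk.injEq] at h1 h2
      rw [h1.1, h2.1]
    · rw [Prod.mk.injEq] at h1
      rw [← h1.2] at hn2
      exact absurd (snd_mem_labels A _ _ h2).1 hn2.1
    · rw [Prod.mk.injEq] at h2
      rw [← h2.2] at hn2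
      exact absurd (snd_mem_labels A _ _ h1).1 hn2.1
    · exact ih hn2.2 h1 h2

theorem mem_rev_of_mem (A : St) (c : ℕ) (h : List ℕ) (u : ℕ) (hm : (c :: h, u) ∈ A) :
    (h, u) ∈ rev A ∧ ([], c) ∈ rev A := by
  unfold rev
  rw [List.mem_flatMap, List.mem_flatMap]
  exact ⟨⟨_, hm, by simp [rev1]⟩, ⟨_, hm, by simp [rev1]⟩⟩

theorem act_le_cost (A : St) (L : List ℕ) (t : ℕ) (hn : (labels A ++ (L ++ [t])).Nodup) :
    act A ≤ cost (toTree (A ++ plain L)) (toTree (rev A ++ [(L, t)])) := by
  have hnA : (labels A).Nodup := (List.nodup_append.mp hn).1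
  have hn2 : (labels (rev A ++ [(L, t)])).Nodup := by
    rw [labels_append, labels_rev]
    simpa [labels] using hn
  rw [← ledges_length, ← List.toFinset_card_of_nodup (ledges_nodup A hnA)]
  unfold cost
  apply Finset.card_le_card
  rintro ⟨x, b, y⟩ hm
  rw [List.mem_toFinset] at hm
  obtain ⟨rfl, h, h2⟩ := mem_ledges A x y b hm
  rw [Finset.mem_symmDiff]
  left
  constructor
  · rw [mem_edges_toTree]
    exact ⟨h, List.mem_append_left _ h2⟩
  · rw [mem_edges_toTree]
    rintro ⟨h', h3⟩
    obtain ⟨h4, h5⟩ := mem_rev_of_mem A y h x h2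
    have h6 : y :: h' = h := entry_unique _ hn2 _ _ x h3 (List.mem_append_left _ h4)
    -- `y` would occur twice
    have h7 : ([], y) ∈ rev A ++ [(L, t)] := List.mem_append_left _ h5
    have h8 : (y :: h', x) ∈ rev A ++ [(L, t)] := h3
    clear h3 h4 h5 h6 hm h2
    generalize rev A ++ [(L, t)] = σ at h7 h8 hn2
    induction σ with
    | nil => simp at h7
    | cons p σ ih =>
      obtain ⟨g, u⟩ := p
      unfold labels at hn2
      rw [List.nodup_append] at hn2
      obtain ⟨hg, hn3, hn4⟩ := hn2
      rw [List.nodup_cons] at hn3
      rw [List.mem_cons, Prod.mk.injEq] at h7 h8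
      rcases h7 with ⟨rfl, rfl⟩ | h7
      · rcases h8 with ⟨h8, -⟩ | h8
        · exact absurd h8 (by simp)
        · exact hn3.1 ((snd_mem_labels σ _ _ h8).2 y (by simp))
      · rcases h8 with ⟨rfl, rfl⟩ | h8
        · exact hn4 y (by simp) y (List.mem_cons_of_mem _ (snd_mem_labels σ _ _ h7).1) rfl
        · exact ih h7 h8 hn3.2

/-! ### reachable states -/

theorem trees_congr (S S' : ℕ → Finset ℕ) (t : ℕ) (h : ∀ i < t, S i = S' i) :
    trees S t = trees S' t := by
  induction t with
  | zero => rfl
  | succ t ih =>
    simp only [trees]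
    rw [ih (fun i hi => h i (by omega)), h t (by omega)]

/-- The state `σ` is reachable by `t` flarbs of total cost at least `c`. -/
def Reach (t : ℕ) (σ : St) (c : ℕ) : Prop :=
  ∃ S : ℕ → Finset ℕ, (∀ i < t, Anchored (S i) (trees S i)) ∧ trees S t = toTree σ ∧
    labels σ = List.range t ∧ c ≤ ∑ i ∈ Finset.range t, cost (trees S i) (trees S (i + 1))

theorem Reach.step {t : ℕ} {A : St} {L : List ℕ} {c : ℕ} (h : Reach t (A ++ plain L) c)
    (hne : A ≠ [] ∨ L = []) : Reach (t + 1) (rev A ++ [(L, t)]) (c + act A) := by
  obtain ⟨S, hS, hT, hl, hc⟩ := h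
  rw [labels_append, labels_plain] at hl
  have hnd : (labels A ++ (L ++ [t])).Nodup := by
    rw [← List.append_assoc, hl, ← List.range_succ]
    exact List.nodup_range
  have hnA : (labels A).Nodup := (List.nodup_append.mp hnd).1
  set s : Finset ℕ := (vis A).toFinset with hs
  have hsel : Sel s A := by
    apply sel_vis A hnA
    · intro y hy
      rw [hs, List.mem_toFinset]
      exact hy
    · intro y _ hy
      rw [hs, List.mem_toFinset]
      exact hy
  have hLs : ∀ y ∈ L, y ∉ s := by
    intro y hy hys
    rw [hs, List.mem_toFinset] at hys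
    rw [List.nodup_append] at hnd
    exact hnd.2.2 y (vis_sub A y hys) y (List.mem_append_left _ hy) rfl
  set S' : ℕ → Finset ℕ := Function.update S t s with hS'
  have hS'i : ∀ i < t, S' i = S i := by
    intro i hi
    rw [hS']
    exact Function.update_of_ne (by omega) _ _
  have hS't : S' t = s := by rw [hS']; exact Function.update_self _ _ _
  have htr : ∀ i ≤ t, trees S' i = trees S i := fun i hi =>
    trees_congr _ _ i (fun j hj => hS'i j (by omega))
  have hnew : trees S' (t + 1) = toTree (rev A ++ [(L, t)]) := by
    show flarb (S' t) t (trees S' t) = _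
    rw [hS't, htr t (le_refl _), hT]
    exact flarb_toTree s t A L hsel hLs
  refine ⟨S', ?_, hnew, ?_, ?_⟩
  · intro i hi
    rcases Nat.lt_succ_iff_lt_or_eq.mp hi with hi | rfl
    · rw [hS'i i hi, htr i hi.le]
      exact hS i hi
    · rw [hS't, htr i (le_refl _), hT]
      refine ⟨?_, ?_, ?_⟩
      · intro y hy
        rw [inorder_toTree, labels_append]
        rw [hs, List.mem_toFinset] at hy
        exact List.mem_append_left _ (vis_sub A y hy)
      · exact parentClosed_toTree s A (plain L) hsel (by rw [labels_plain]; exact hLs)
      · intro x hx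
        cases A with
        | nil =>
          rcases hne with hne | hne
          · exact absurd rfl hne
          · rw [hne] at hx
            simp [plain, toTree, BT.root] at hx
        | cons p A =>
          obtain ⟨h, u⟩ := p
          simp only [List.cons_append, toTree, BT.root, Option.some.injEq] at hx
          subst hx
          rw [hs, List.mem_toFinset]
          cases h <;> simp [vis]
  · rw [labels_append, labels_rev]
    simp only [labels]
    rw [← List.append_assoc, hl, ← List.range_succ]
  · rw [Finset.sum_range_succ]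
    refine add_le_add ?_ ?_
    · refine hc.trans (le_of_eq ?_)
      refine Finset.sum_congr rfl fun i hi => ?_
      rw [Finset.mem_range] at hi
      rw [htr i (by omega), htr (i + 1) (by omega)]
    · rw [hnew, htr t (le_refl _), hT]
      exact act_le_cost A L t hnd

/-- number of flarbs of the `k`-th procedure -/
def len : ℕ → ℕ
  | 0 => 0
  | k + 1 => 2 * len k + 1

/-- cost of the `k`-th procedure -/
def wt : ℕ → ℕ
  | 0 => 0
  | k + 1 => 2 * wt k + len k

theorem iter_rev_append (n : ℕ) (A B : St) : rev^[n] (A ++ B) = rev^[n] A ++ rev^[n] B := by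
  induction n generalizing A B with
  | zero => rfl
  | succ n ih => rw [Function.iterate_succ_apply, Function.iterate_succ_apply,
      Function.iterate_succ_apply, rev_append, ih]

theorem iter_rev_plain (n : ℕ) (L : List ℕ) : rev^[n] (plain L) = plain L := by
  induction n with
  | zero => rfl
  | succ n ih => rw [Function.iterate_succ_apply, rev_plain, ih]

theorem plain_append (L L' : List ℕ) : plain (L ++ L') = plain L ++ plain L' := by
  simp [plain]

/-- revealing one after the other -/
theorem iter_rev_single (L : List ℕ) (p : ℕ) (n : ℕ) (hn : n ≤ L.length) :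
    rev^[n] [(L, p)] = plain (L.take n) ++ [(L.drop n, p)] := by
  induction n with
  | zero => simp [plain]
  | succ n ih =>
    rw [Function.iterate_succ_apply', ih (by omega), rev_append, rev_plain]
    have h1 : L.drop n = L[n]'(by omega) :: L.drop (n + 1) := List.drop_eq_getElem_cons (by omega)
    have h2 : L.take (n + 1) = L.take n ++ [L[n]'(by omega)] := (List.take_append_getElem (by omega)).symm
    have h3 : rev [(L[n]'(by omega) :: L.drop (n + 1), p)] =
        [([], L[n]'(by omega)), (L.drop (n + 1), p)] := rfl
    have h4 : plain [L[n]'(by omega)] = [([], L[n]'(by omega))] := rfl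
    rw [h1, h2, plain_append, h3, h4, List.append_assoc]
    rfl

theorem act_plain (L : List ℕ) : act (plain L) = 0 := by
  induction L with
  | nil => rfl
  | cons c L ih =>
    have : plain (c :: L) = ([], c) :: plain L := rfl
    rw [this]
    exact ih

theorem act_single (L : List ℕ) (p : ℕ) (n : ℕ) (hn : n < L.length) :
    act (rev^[n] [(L, p)]) = 1 := by
  rw [iter_rev_single L p n hn.le, act_append, act_plain]
  have h1 : L.drop n = L[n] :: L.drop (n + 1) := List.drop_eq_getElem_cons hn
  rw [h1]
  rfl

theorem rev_ne_nil {A : St} (h : A ≠ []) : rev A ≠ [] := by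
  cases A with
  | nil => exact absurd rfl h
  | cons p A =>
    obtain ⟨g, u⟩ := p
    cases g <;> simp [rev, rev1]

theorem iter_rev_ne_nil {A : St} (h : A ≠ []) (n : ℕ) : rev^[n] A ≠ [] := by
  induction n with
  | zero => exact h
  | succ n ih => rw [Function.iterate_succ_apply']; exact rev_ne_nil ih

theorem procedure (k : ℕ) : ∀ (t : ℕ) (A : St) (c : ℕ), A ≠ [] → Reach t A c →
    Reach (t + len k) (rev^[len k] A ++ plain (List.range' t (len k)))
      (c + wt k + ∑ i ∈ Finset.range (len k), act (rev^[i] A)) := by
  induction k with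
  | zero =>
    intro t A c _ h
    simpa [len, wt, plain] using h
  | succ k ih =>
    intro t A c hne h
    have h1 := ih t A c hne h
    have h2 := h1.step (Or.inl (iter_rev_ne_nil hne _))
    rw [← Function.iterate_succ_apply' rev (len k) A] at h2
    set L := List.range' t (len k) with hL
    have hLl : L.length = len k := by simp [hL]
    have hne2 : rev^[(len k).succ] A ++ [(L, t + len k)] ≠ [] := by simp
    have h3 := ih _ _ _ hne2 h2
    have e1 : t + len k + 1 + len k = t + len (k + 1) := by simp only [len]; omega
    have e2 : rev^[len k] (rev^[(len k).succ] A ++ [(L, t + len k)]) ++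
        plain (List.range' (t + len k + 1) (len k)) =
        rev^[len (k + 1)] A ++ plain (List.range' t (len (k + 1))) := by
      rw [iter_rev_append, ← Function.iterate_add_apply]
      have e3 : len k + (len k).succ = len (k + 1) := by simp only [len]; omega
      rw [e3, iter_rev_single L (t + len k) (len k) (by omega)]
      have e4 : L.take (len k) = L := by rw [← hLl]; exact List.take_length
      have e5 : L.drop (len k) = [] := by rw [← hLl]; exact List.drop_length
      rw [e4, e5, List.append_assoc]
      congr 1
      have e6 : List.range' t (len (k + 1)) =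
          L ++ ([t + len k] ++ List.range' (t + len k + 1) (len k)) := by
        rw [hL]
        have : len (k + 1) = len k + (1 + len k) := by simp only [len]; omega
        rw [this, ← List.range'_append_1]
        congr 1
        rw [← List.range'_append_1]
        simp
      rw [e6, plain_append, plain_append]
      simp [plain]
    rw [e1, e2] at h3
    obtain ⟨S, a1, a2, a3, a4⟩ := h3
    refine ⟨S, a1, a2, a3, le_trans ?_ a4⟩
    have s1 : ∑ i ∈ Finset.range (len k), act (rev^[i] (rev^[(len k).succ] A ++ [(L, t + len k)]))
        = ∑ i ∈ Finset.range (len k), act (rev^[i + (len k).succ] A) + len k := by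
      calc _ = ∑ i ∈ Finset.range (len k), (act (rev^[i + (len k).succ] A) + 1) := by
            refine Finset.sum_congr rfl fun i hi => ?_
            rw [Finset.mem_range] at hi
            rw [iter_rev_append, act_append, act_single L _ i (by omega),
              ← Function.iterate_add_apply]
        _ = _ := by rw [Finset.sum_add_distrib]; simp
    rw [s1]
    have s2 : ∑ i ∈ Finset.range (len (k + 1)), act (rev^[i] A) =
        ∑ i ∈ Finset.range (len k), act (rev^[i] A) + act (rev^[len k] A) +
          ∑ i ∈ Finset.range (len k), act (rev^[i + (len k).succ] A) := by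
      have : len (k + 1) = (len k + 1) + len k := by simp only [len]; omega
      rw [this, Finset.sum_range_add, Finset.sum_range_succ]
      congr 1
      refine Finset.sum_congr rfl fun i _ => ?_
      rw [Nat.succ_eq_add_one, Nat.add_comm (len k + 1) i]
    rw [s2]
    simp only [wt]
    omega

theorem reach_one : Reach 1 [([], 0)] 0 := by
  have h0 : Reach 0 ([] ++ plain []) 0 := by
    refine ⟨fun _ => ∅, by simp, rfl, rfl, by simp⟩
  have := h0.step (Or.inr rfl)
  simpa [rev, act] using this

theorem len_eq (k : ℕ) : len k + 1 = 2 ^ k := by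
  induction k with
  | zero => rfl
  | succ k ih => simp only [len, pow_succ]; omega

theorem wt_eq (k : ℕ) : 2 * wt k + 2 * 2 ^ k = k * 2 ^ k + 2 := by
  induction k with
  | zero => rfl
  | succ k ih =>
    have := len_eq k
    simp only [wt, pow_succ]
    nlinarith

/-- For every `k` there is a sequence of `2^k` flarbs, starting from the empty tree, with at
least `(k/2 - 1) 2^k + 1` pointer changes. -/
theorem many_changes (k : ℕ) : ∃ S : ℕ → Finset ℕ,
    (∀ i < 2 ^ k, Anchored (S i) (trees S i)) ∧
    k * 2 ^ k + 2 ≤ 2 * ∑ i ∈ Finset.range (2 ^ k), cost (trees S i) (trees S (i + 1)) + 2 * 2 ^ k := by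
  obtain ⟨S, h1, -, -, h4⟩ := procedure k 1 _ 0 (by simp) reach_one
  have e : 1 + len k = 2 ^ k := by rw [add_comm]; exact len_eq k
  rw [e] at h1 h4
  refine ⟨S, h1, ?_⟩
  have := wt_eq k
  omega

end Pool.Agent.R42.FL
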